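import Pool.Agent.Q297.IF.Stmt

/-!
The quotient map from measure preserving permutations of the circle to their classes modulo
null sets splits over the group of interval exchanges with flips.

The definitions are in `Pool.Agent.Q297.IF.Basic` (the circle `SS`, the group `IETrep` of
piecewise isometric permutations, the group `FinS` of finitely supported permutations, the
group `Ghat` of Lebesgue measurable and measure preserving permutations) and in
`Pool.Agent.Q297.IF.Stmt` (the group `IETg` of interval exchanges with flips, the normal
subgroup `NN` of `Ghat`, the quotient map `pr` from `Ghat` to `GG = Ghat ⧸ NN`, and the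
embedding `incl` of `IETg` into `GG`).
-/

namespace Pool.Agent.Results.MP_83934b_an.FlipLifting

open Pool.Agent.Q297.IF

theorem result : Function.Injective incl ∧
    ∃ σ : IETg →* Ghat, ∀ g : IETg, pr (σ g) = incl g :=
  ⟨incl_injective, exists_splitting⟩

end Pool.Agent.Results.MP_83934b_an.FlipLifting
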